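import Pool.Agent.KACR.Stmts

/-!
# KACR, row NEA: partners depend continuously on the point
-/

namespace Pool.Agent.KACR.H31

open Set Filter Pool.Agent.KACR

/-- the derivative of a periodic function is periodic -/
theorem per_deriv {k : ℝ → ℝ} {L : ℝ} (h : Function.Periodic k L) :
    Function.Periodic (deriv k) L := by
  intro s
  have h1 : (fun x => k (x + L)) = k := funext h
  have h2 := deriv_comp_add_const (f := k) L s
  rw [h1] at h2
  exact h2.symm

/-- the jets are periodic -/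
theorem jet_per {L : ℝ} {k : ℝ → ℝ} (hk : Gen L k) (j : ℤ) (s : ℝ) :
    k (s + j * L) = k s ∧ deriv k (s + j * L) = deriv k s ∧
      deriv (deriv k) (s + j * L) = deriv (deriv k) s := by
  have h0 : Function.Periodic k L := hk.per
  exact ⟨h0.int_mul j s, (per_deriv h0).int_mul j s, (per_deriv (per_deriv h0)).int_mul j s⟩

/-- the jets are continuous -/
theorem jet_cont {L : ℝ} {k : ℝ → ℝ} (hk : Gen L k) :
    Continuous k ∧ Continuous (deriv k) ∧ Continuous (deriv (deriv k)) := by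
  have h1 := contDiff_infty_iff_deriv.1 hk.smooth
  have h2 := contDiff_infty_iff_deriv.1 h1.2
  exact ⟨hk.smooth.continuous, h1.2.continuous, h2.2.continuous⟩

/-- row NEA -/
theorem nea : NeaStmt := by
  intro L k k' hk hk' hall s₁ t₁ hst η hη
  have hL := hk.pos
  by_contra hcon
  push Not at hcon
  have h1 : ∀ n : ℕ, ∃ s t : ℝ, |s - s₁| < 1 / ((n : ℝ) + 1) ∧
      t ∈ Icc (t₁ - L / 2) (t₁ + L / 2) ∧ η ≤ |t - t₁| ∧ SameJet k k' s t := by
    intro n
    obtain ⟨s, hs, hno⟩ := hcon (1 / ((n : ℝ) + 1)) Nat.one_div_pos_of_nat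
    obtain ⟨t', ht'⟩ := hall s
    obtain ⟨j, hj⟩ : ∃ j : ℤ, t' + j * L ∈ Icc (t₁ - L / 2) (t₁ + L / 2) := by
      refine ⟨-round ((t' - t₁) / L), ?_⟩
      have h2 := abs_sub_round ((t' - t₁) / L)
      rw [abs_le] at h2
      have h3 : (t' - t₁) / L * L = t' - t₁ := div_mul_cancel₀ _ hL.ne'
      push_cast
      constructor
      · nlinarith [mul_le_mul_of_nonneg_right h2.1 hL.le]
      · nlinarith [mul_le_mul_of_nonneg_right h2.2 hL.le]
    have hj2 : SameJet k k' s (t' + j * L) := by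
      obtain ⟨e1, e2, e3⟩ := jet_per hk' j t'
      obtain ⟨f1, f2, f3⟩ := ht'
      exact ⟨by rw [e1, f1], by rw [e2, f2], by rw [e3, f3]⟩
    refine ⟨s, t' + j * L, hs, hj, ?_, hj2⟩
    by_contra h
    exact hno _ (not_le.1 h) hj2
  choose s t hs ht hη' hj using h1
  obtain ⟨t0, ht0, φ, hφ, hlim⟩ := isCompact_Icc.tendsto_subseq ht
  have hs0 : Tendsto s atTop (nhds s₁) := by
    rw [tendsto_iff_dist_tendsto_zero]
    refine squeeze_zero (fun n => dist_nonneg) (fun n => ?_) tendsto_one_div_add_atTop_nhds_zero_nat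
    rw [Real.dist_eq]
    exact (hs n).le
  have hsφ : Tendsto (s ∘ φ) atTop (nhds s₁) := hs0.comp hφ.tendsto_atTop
  obtain ⟨c1, c2, c3⟩ := jet_cont hk
  obtain ⟨d1, d2, d3⟩ := jet_cont hk'
  have hjet : SameJet k k' s₁ t0 := by
    refine ⟨?_, ?_, ?_⟩
    · refine tendsto_nhds_unique ((d1.tendsto t0).comp hlim) ?_
      refine ((c1.tendsto s₁).comp hsφ).congr fun n => ?_
      exact (hj (φ n)).1.symm
    · refine tendsto_nhds_unique (((d2.pow 2).tendsto t0).comp hlim) ?_
      refine (((c2.pow 2).tendsto s₁).comp hsφ).congr fun n => ?_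
      exact (hj (φ n)).2.1.symm
    · refine tendsto_nhds_unique ((d3.tendsto t0).comp hlim) ?_
      refine ((c3.tendsto s₁).comp hsφ).congr fun n => ?_
      exact (hj (φ n)).2.2.symm
  obtain ⟨j, hjL⟩ := hk'.inj t0 t₁ (by rw [hjet.1, hst.1]) (by rw [hjet.2.1, hst.2.1])
    (by rw [hjet.2.2, hst.2.2])
  have hj0 : j = 0 := by
    have h2 : |(j : ℝ) * L| ≤ L / 2 := by
      have h3 : (j : ℝ) * L = t₁ - t0 := by linarith
      rw [h3, abs_le]
      constructor
      · linarith [ht0.2]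
      · linarith [ht0.1]
    rw [abs_mul, abs_of_pos hL] at h2
    have h4 : |(j : ℝ)| < 1 := by
      by_contra h
      push Not at h
      nlinarith
    have h5 : |j| < 1 := by exact_mod_cast h4
    exact Int.abs_lt_one_iff.1 h5
  rw [hj0] at hjL
  have ht01 : t0 = t₁ := by
    rw [hjL]
    push_cast
    ring
  have h6 : Tendsto (fun n => |(t ∘ φ) n - t₁|) atTop (nhds |t0 - t₁|) :=
    ((hlim.sub_const t₁).abs)
  have h7 : η ≤ |t0 - t₁| := ge_of_tendsto' h6 fun n => hη' (φ n)
  rw [ht01, sub_self, abs_zero] at h7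
  linarith

end Pool.Agent.KACR.H31
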